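import Mathlib

/-!
# MP_4e651d_al: residual rank well-defined implies that the residual order is a partial order

The answer to Q1 is NO: in every t.d.l.c.s.c. group whose residual rank is well-defined
the relation `K₁ ≼ K₂ ↔ K₁ ≤ Res_G(K₂) ∨ K₁ = K₂` is a partial order on the set of
compactly generated closed subgroups.
-/

namespace Pool.Agent.Results.MP_4e651d_al.ResidualOrder

open Topology Pointwise

universe u

variable (G : Type u) [Group G] [TopologicalSpace G]

/-- `𝒦(G)`: the closed subgroups of `G` that are generated (as a group) by a compact subset. -/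
def CG : Set (Subgroup G) :=
  {K | IsClosed (K : Set G) ∧ ∃ C : Set G, IsCompact C ∧ Subgroup.closure C = K}

variable {G}

/-- The discrete residual `Res_G(K)`: the intersection of all open subgroups `O` of `G`
with `k O = O k` for every `k ∈ K`. -/
def Res (K : Subgroup G) : Subgroup G :=
  sInf {O : Subgroup G | IsOpen (O : Set G) ∧
    ∀ k ∈ K, (fun g => k * g) '' (O : Set G) = (fun g => g * k) '' (O : Set G)}

/-- The residual relation `K₁ ≼ K₂`. -/
def RLe (K₁ K₂ : Subgroup G) : Prop := K₁ ≤ Res K₂ ∨ K₁ = K₂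

/-- `K₁ ≺ K₂`. -/
def RLt (K₁ K₂ : Subgroup G) : Prop := RLe K₁ K₂ ∧ K₁ ≠ K₂

variable (G)

/-- The residual hierarchy `𝒦_α(G)`. -/
noncomputable def Hier (α : Ordinal.{0}) : Set (Subgroup G) :=
  if α = 0 then {⊥}
  else if α = 1 then {K | K ∈ CG G ∧ Res K = ⊥}
  else {K | K ∈ CG G ∧ ∀ L ∈ CG G, RLt L K → ∃ β : {β : Ordinal.{0} // β < α}, L ∈ Hier β.1}
termination_by α
decreasing_by exact β.2

/-- The residual rank of `G` is well-defined: `𝒦(G) = ⋃_{α < ω₁} 𝒦_α(G)`. -/
def RankWellDefined : Prop :=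
  CG G = ⋃ α : {α : Ordinal.{0} // α < Ordinal.omega 1}, Hier G α.1

/-- `≼` is a partial order on `𝒦(G)`. -/
def ResidualOrderIsPartialOrder : Prop :=
  (∀ K ∈ CG G, RLe K K) ∧
  (∀ K ∈ CG G, ∀ L ∈ CG G, RLe K L → RLe L K → K = L) ∧
  (∀ K ∈ CG G, ∀ L ∈ CG G, ∀ M ∈ CG G, RLe K L → RLe L M → RLe K M)

variable {G}

/-- van Dantzig: a point different from `1` is missed by an open subgroup. -/
theorem exists_open_subgroup [IsTopologicalGroup G] [T2Space G] [LocallyCompactSpace G]
    [TotallyDisconnectedSpace G] (x : G) (hx : x ≠ 1) :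
    ∃ O : Subgroup G, IsOpen (O : Set G) ∧ x ∉ O := by
  have hn : ({x}ᶜ : Set G) ∈ 𝓝 (1 : G) := isOpen_compl_singleton.mem_nhds (by
    simpa using hx.symm)
  obtain ⟨K, hK1, hKx, hKc⟩ := local_compact_nhds hn
  obtain ⟨W, hWb, h1W, hWK⟩ :=
    (loc_compact_Haus_tot_disc_of_zero_dim (H := G)).mem_nhds_iff.1
      (interior_mem_nhds.2 hK1)
  have hWK' : W ⊆ K := hWK.trans interior_subset
  have hWc : IsCompact W := hKc.of_isClosed_subset hWb.1 hWK'
  obtain ⟨V, hV, hWV⟩ := compact_open_separated_mul_right hWc hWb.2 (subset_refl W)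
  let O : Subgroup G :=
    { carrier := {g | ∀ w, w ∈ W ↔ w * g ∈ W}
      one_mem' := by intro w; simp
      mul_mem' := by
        intro a b ha hb w
        rw [ha w, hb (w * a), mul_assoc]
      inv_mem' := by
        intro a ha w
        have h := ha (w * a⁻¹)
        simpa using h.symm }
  refine ⟨O, ?_, ?_⟩
  · apply Subgroup.isOpen_of_mem_nhds (g := 1)
    have hV' : (V ∩ V⁻¹) ∈ 𝓝 (1 : G) := Filter.inter_mem hV (by
      have := inv_mem_nhds_one G hV
      exact this)
    refine Filter.mem_of_superset hV' ?_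
    intro g hg w
    constructor
    · intro hw
      exact hWV (Set.mul_mem_mul hw hg.1)
    · intro hw
      have := hWV (Set.mul_mem_mul hw hg.2)
      simpa using this
  · intro hxO
    have h1 : x ∈ W := by
      have := (hxO 1).1 h1W
      simpa using this
    exact (hKx (hWK' h1)) rfl

theorem Res_bot [IsTopologicalGroup G] [T2Space G] [LocallyCompactSpace G]
    [TotallyDisconnectedSpace G] : Res (⊥ : Subgroup G) = ⊥ := by
  rw [eq_bot_iff]
  intro x hx
  rw [Subgroup.mem_bot]
  by_contra hne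
  obtain ⟨O, hO, hxO⟩ := exists_open_subgroup x hne
  apply hxO
  unfold Res at hx
  rw [Subgroup.mem_sInf] at hx
  apply hx
  refine ⟨hO, ?_⟩
  intro k hk
  rw [Subgroup.mem_bot] at hk
  subst hk
  simp

theorem rle_trans (K L M : Subgroup G) (h₁ : RLe K L) (h₂ : RLe L M) : RLe K M := by
  rcases h₂ with h₂ | h₂
  · rcases h₁ with h₁ | h₁
    · left
      refine h₁.trans ?_
      -- `Res L ≤ Res M`
      unfold Res
      apply le_sInf
      intro O hO
      apply sInf_le
      refine ⟨hO.1, ?_⟩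
      intro k hk
      have hkO : k ∈ O := by
        have h := h₂ hk
        unfold Res at h
        rw [Subgroup.mem_sInf] at h
        exact h O hO
      ext g
      simp only [Set.mem_image, SetLike.mem_coe]
      constructor
      · rintro ⟨a, ha, rfl⟩
        exact ⟨k * a * k⁻¹, O.mul_mem (O.mul_mem hkO ha) (O.inv_mem hkO), by group⟩
      · rintro ⟨a, ha, rfl⟩
        exact ⟨k⁻¹ * (a * k), O.mul_mem (O.inv_mem hkO) (O.mul_mem ha hkO), by group⟩
    · subst h₁
      exact Or.inl h₂
  · subst h₂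
    exact h₁

theorem hier_zero : Hier G 0 = {⊥} := by
  rw [Hier]; simp

theorem hier_one : Hier G 1 = {K | K ∈ CG G ∧ Res K = ⊥} := by
  rw [Hier]; simp

theorem hier_of {α : Ordinal.{0}} (h0 : α ≠ 0) (h1 : α ≠ 1) :
    Hier G α = {K | K ∈ CG G ∧ ∀ L ∈ CG G, RLt L K → ∃ β < α, L ∈ Hier G β} := by
  rw [Hier]
  simp only [h0, h1, if_false]
  ext K
  constructor
  · rintro ⟨h, h'⟩
    refine ⟨h, fun L hL hLK => ?_⟩
    obtain ⟨β, hβ⟩ := h' L hL hLK
    exact ⟨β.1, β.2, hβ⟩
  · rintro ⟨h, h'⟩
    refine ⟨h, fun L hL hLK => ?_⟩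
    obtain ⟨β, hβ, hβ'⟩ := h' L hL hLK
    exact ⟨⟨β, hβ⟩, hβ'⟩

/-- No element of the hierarchy lies in a two-cycle of `≺`. -/
theorem no_cycle [IsTopologicalGroup G] [T2Space G] [LocallyCompactSpace G]
    [TotallyDisconnectedSpace G] (α : Ordinal.{0}) :
    ∀ K ∈ Hier G α, ∀ L, K ∈ CG G → L ∈ CG G → RLt K L → RLt L K → False := by
  induction α using WellFoundedLT.induction with
  | ind α ih =>
    intro K hK L hKC hLC hKL hLK
    have hLR : L ≤ Res K := by
      rcases hLK.1 with h | h
      · exact h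
      · exact absurd h hLK.2
    have hKR : K ≤ Res L := by
      rcases hKL.1 with h | h
      · exact h
      · exact absurd h hKL.2
    by_cases h0 : α = 0
    · subst h0
      rw [hier_zero] at hK
      have hK' : K = ⊥ := hK
      subst hK'
      rw [Res_bot] at hLR
      exact hLK.2 (le_bot_iff.1 hLR)
    · by_cases h1 : α = 1
      · subst h1
        rw [hier_one] at hK
        rw [hK.2] at hLR
        have hL' : L = ⊥ := le_bot_iff.1 hLR
        subst hL'
        rw [Res_bot] at hKR
        exact hKL.2 (le_bot_iff.1 hKR)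
      · rw [hier_of h0 h1] at hK
        obtain ⟨β, hβ, hL⟩ := hK.2 L hLC hLK
        exact ih β hβ L hL K hLC hKC hLK hKL

/-- **Negative answer to Q1.** For every t.d.l.c.s.c. group `G` whose residual rank is
well-defined, the residual relation is a partial order on `𝒦(G)`. -/
theorem result (G : Type u) [Group G] [TopologicalSpace G] [IsTopologicalGroup G] [T2Space G]
    [LocallyCompactSpace G] [TotallyDisconnectedSpace G] [SecondCountableTopology G]
    (h : RankWellDefined G) : ResidualOrderIsPartialOrder G := by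
  refine ⟨fun K _ => Or.inr rfl, ?_, fun K _ L _ M _ => rle_trans K L M⟩
  intro K hK L hL hKL hLK
  by_contra hne
  have hK' : K ∈ ⋃ α : {α : Ordinal.{0} // α < Ordinal.omega 1}, Hier G α.1 := by
    rw [← h]; exact hK
  obtain ⟨α, hα⟩ := Set.mem_iUnion.1 hK'
  exact no_cycle α.1 K hα L hK hL ⟨hKL, hne⟩ ⟨hLK, Ne.symm hne⟩

end Pool.Agent.Results.MP_4e651d_al.ResidualOrder
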